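import Pool.Agent.Helper31.LW.Goals

/-!
# The simplex inequality for all affine quermassintegrals of polytopes with few vertices:
the goal PSF
-/

open MeasureTheory Set
open scoped ENNReal Matrix
open Pool.Agent.Helper47.AQ

noncomputable section

namespace Pool.Agent.Helper45.LW

open Pool.Agent.Helper31.LQ Pool.Agent.Helper31.LW

variable {e m : ℕ}

lemma vN_nonneg (K : Set (Fin (e + 1 + m) → ℝ)) (Z : Fin m → Fin e → ℝ) (b : Fin m → ℝ) :
    0 ≤ vN K Z b := ENNReal.toReal_nonneg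

lemma meas_exp (hV : VPOS) (K : Set (Fin (e + 1 + m) → ℝ)) (hK : IsCompact K)
    (Z : Fin m → Fin e → ℝ) (r : ℝ) :
    Measurable fun b : Fin m → ℝ => Real.exp (-(r * vN K Z b)) := by
  have h0 : Measurable fun b : Fin m → ℝ => ((Z, b) : (Fin m → Fin e → ℝ) × (Fin m → ℝ)) :=
    measurable_const.prodMk measurable_id
  have h2 := ((hV e m).2.2.2 K hK)
  have h1 : Measurable fun b : Fin m → ℝ => vN K Z b :=
    Measurable.comp (g := fun p : (Fin m → Fin e → ℝ) × (Fin m → ℝ) => vN K p.1 p.2)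
      (f := fun b : Fin m → ℝ => ((Z, b) : (Fin m → Fin e → ℝ) × (Fin m → ℝ))) h2 h0
  exact Real.measurable_exp.comp (h1.const_mul r).neg

/-- The Prekopa-Leindler step along the shadow system. -/
lemma ps_step (hC : CONV) (hP : PLE) (hV : VPOS) (X : ℝ → Set (Fin (e + 1 + m) → ℝ))
    (hX : RFam (Fin.castAdd m 0) X) (Z : Fin m → Fin e → ℝ) (r : ℝ) (hr : 0 < r)
    (s t l : ℝ) (hs : s ∈ Icc (0 : ℝ) 1) (ht : t ∈ Icc (0 : ℝ) 1) (hl0 : 0 < l) (hl1 : l < 1) :
    Ps (X s) Z r ^ (1 - l) * Ps (X t) Z r ^ l ≤ Ps (X ((1 - l) * s + l * t)) Z r := by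
  have hu : (1 - l) * s + l * t ∈ Icc (0 : ℝ) 1 := by
    constructor
    · have h1 := mul_nonneg (sub_nonneg.2 hl1.le) hs.1
      have h2 := mul_nonneg hl0.le ht.1
      linarith
    · have h1 := mul_le_mul_of_nonneg_left hs.2 (sub_nonneg.2 hl1.le)
      have h2 := mul_le_mul_of_nonneg_left ht.2 hl0.le
      linarith
  have bs := hX.body s hs
  have bt := hX.body t ht
  have bu := hX.body _ hu
  have hfib := hX.fib s hs t ht l ⟨hl0.le, hl1.le⟩
  have bound : ∀ (K : Set (Fin (e + 1 + m) → ℝ)) (x : Fin m → ℝ),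
      0 ≤ Real.exp (-(r * vN K Z x)) ∧ Real.exp (-(r * vN K Z x)) ≤ 1 := by
    intro K x
    refine ⟨(Real.exp_pos _).le, ?_⟩
    rw [Real.exp_le_one_iff]
    have := mul_nonneg hr.le (vN_nonneg K Z x)
    linarith
  refine hP m (fun b => Real.exp (-(r * vN (X s) Z b))) (fun b => Real.exp (-(r * vN (X t) Z b)))
    (fun b => Real.exp (-(r * vN (X ((1 - l) * s + l * t)) Z b))) l 1 hl0 hl1
    (meas_exp hV _ bs.comp Z r) (meas_exp hV _ bt.comp Z r) (meas_exp hV _ bu.comp Z r)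
    (bound _) (bound _) (bound _) ?_
  intro x y
  have hc := hC e m (X s) (X t) (X ((1 - l) * s + l * t)) bs.conv bs.comp bt.conv bt.comp
    bu.conv bu.comp l ⟨hl0.le, hl1.le⟩ hfib Z x y
  show Real.exp (-(r * vN (X s) Z x)) ^ (1 - l) * Real.exp (-(r * vN (X t) Z y)) ^ l ≤
    Real.exp (-(r * vN (X ((1 - l) * s + l * t)) Z (fun i => (1 - l) * x i + l * y i)))
  rw [← Real.exp_mul, ← Real.exp_mul, ← Real.exp_add, Real.exp_le_exp]
  have := mul_le_mul_of_nonneg_left hc hr.le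
  nlinarith [this]

lemma ps_pos (hV : VPOS) (K : Set (Fin (e + 1 + m) → ℝ)) (hK : IsCompact K)
    (Z : Fin m → Fin e → ℝ) (r : ℝ) : 0 < Ps K Z r := by
  unfold Ps
  rw [lintegral_pos_iff_support (meas_exp hV K hK Z r).ennreal_ofReal]
  have : Function.support (fun b : Fin m → ℝ => ENNReal.ofReal (Real.exp (-(r * vN K Z b))))
      = univ := by
    ext b
    simp only [Function.mem_support, mem_univ, iff_true]
    exact (ENNReal.ofReal_pos.2 (Real.exp_pos _)).ne'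
  rw [this]
  exact Measure.measure_univ_pos.2 (NeZero.ne _)

/-- Cancellation. -/
lemma cancel_step (c x : ℝ≥0∞) (l : ℝ) (hl0 : 0 < l) (hl1 : l < 1) (hc0 : 0 < c) (hc1 : c < ⊤)
    (h : x ^ (1 - l) * c ^ l ≤ c) : x ≤ c := by
  have h1 : c = c ^ (1 - l) * c ^ l := by
    rw [← ENNReal.rpow_add _ _ hc0.ne' hc1.ne]
    simp
  have h2 : x ^ (1 - l) * c ^ l ≤ c ^ (1 - l) * c ^ l := by
    rw [← h1]; exact h
  have hz0 : c ^ l ≠ 0 := (ENNReal.rpow_pos hc0 hc1.ne).ne'
  have hz1 : c ^ l ≠ ⊤ := ENNReal.rpow_ne_top_of_nonneg hl0.le hc1.ne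
  have h3 : x ^ (1 - l) ≤ c ^ (1 - l) := (ENNReal.mul_le_mul_iff_left hz0 hz1).1 h2
  exact (ENNReal.rpow_le_rpow_iff (sub_pos.2 hl1)).1 h3

theorem gPSF (hC : CONV) (hR : REFL) (hP : PLE) (hV : VPOS) : PSF := by
  intro e m X hX Z r hr
  have h01 : (0 : ℝ) ∈ Icc (0 : ℝ) 1 := ⟨le_rfl, zero_le_one⟩
  have h11 : (1 : ℝ) ∈ Icc (0 : ℝ) 1 := ⟨zero_le_one, le_rfl⟩
  have hone : Ps (X 1) Z r = Ps (X 0) Z r := by
    rw [hX.refl]
    exact (hR e m (X 0) Z).2 r
  have hfirst : ∀ t ∈ Icc (0 : ℝ) 1, Ps (X 0) Z r ≤ Ps (X t) Z r := by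
    intro t ht
    rcases eq_or_lt_of_le ht.1 with h | h
    · rw [← h]
    rcases eq_or_lt_of_le ht.2 with h' | h'
    · rw [h', hone]
    have := ps_step hC hP hV X hX Z r hr 0 1 t h01 h11 h h'
    rw [hone, ← ENNReal.rpow_add_of_nonneg _ _ (sub_nonneg.2 h'.le) h.le] at this
    simpa using this
  refine ⟨hfirst, ?_⟩
  intro hfin t ht heq t' ht'
  have hpos : 0 < Ps (X 0) Z r := ps_pos hV (X 0) (hX.body 0 h01).comp Z r
  refine le_antisymm ?_ (hfirst t' ht')
  rcases lt_trichotomy t' t with h | h | h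
  · have hd : 0 < 1 - t' := by linarith [ht.2]
    have hl0 : 0 < (t - t') / (1 - t') := div_pos (by linarith) hd
    have hl1 : (t - t') / (1 - t') < 1 := by
      rw [div_lt_one hd]; linarith [ht.2]
    have hst := ps_step hC hP hV X hX Z r hr t' 1 ((t - t') / (1 - t')) ht' h11 hl0 hl1
    have e1 : (1 - (t - t') / (1 - t')) * t' + (t - t') / (1 - t') * 1 = t := by
      field_simp
      ring
    rw [e1, hone, heq] at hst
    exact cancel_step _ _ _ hl0 hl1 hpos hfin hst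
  · rw [h, heq]
  · have hd : 0 < t' := by linarith [ht.1]
    have hl0 : 0 < (t' - t) / t' := div_pos (by linarith) hd
    have hl1 : (t' - t) / t' < 1 := by
      rw [div_lt_one hd]; linarith [ht.1]
    have hst := ps_step hC hP hV X hX Z r hr t' 0 ((t' - t) / t') ht' h01 hl0 hl1
    have e1 : (1 - (t' - t) / t') * t' + (t' - t) / t' * 0 = t := by
      field_simp
      ring
    rw [e1, heq] at hst
    exact cancel_step _ _ _ hl0 hl1 hpos hfin hst

end Pool.Agent.Helper45.LW
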